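import Pool.Agent.Helper38.FRX.Goals

/-!
# CNTC: counting the functions which differ from the reference in a rooted set, with few cut edges
-/

set_option autoImplicit false

namespace Pool.Agent.Helper88.FRX

open Finset Pool.Agent.Helper55.FR Pool.Agent.Helper38.FRX

section

variable {V : Type} [Fintype V] [DecidableEq V]

theorem adj_symm {n : Equiv.Perm V} {m : V → V} (hC : Cub n m) {x y : V} (h : adj n m x y) :
    adj n m y x := by
  rcases h with h | h | h
  · exact Or.inr (Or.inl h)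
  · exact Or.inl h
  · exact Or.inr (Or.inr (by rw [h, hC.mm]))

theorem hadj_symm {n : Equiv.Perm V} {m : V → V} (hC : Cub n m) {E : Finset V}
    (hE : ∀ x, x ∈ E ↔ m x ∈ E) {x y : V} (h : hadj n m E x y) : hadj n m E y x := by
  rcases h with h | h | ⟨h, hx⟩
  · exact Or.inr (Or.inl h)
  · exact Or.inl h
  · refine Or.inr (Or.inr ⟨by rw [h, hC.mm], ?_⟩)
    rw [h]
    exact (hE x).1 hx

theorem hadj_deg (n : Equiv.Perm V) (m : V → V) (E : Finset V) (x : V) :
    ∃ N : Finset V, N.card ≤ 3 ∧ ∀ y, hadj n m E x y → y ∈ N := by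
  refine ⟨{n x, n.symm x, m x}, card_le_three, fun y h => ?_⟩
  rcases h with h | h | ⟨h, -⟩
  · simp [h]
  · simp [h]
  · simp [h]

/-- Adjacency of parts. -/
def RB (n : Equiv.Perm V) (m : V → V) (κ : V → V) (s t : V) : Prop :=
  ∃ x y, κ x = s ∧ κ y = t ∧ adj n m x y

theorem RB_symm {n : Equiv.Perm V} {m : V → V} (hC : Cub n m) (κ : V → V) (s t : V)
    (h : RB n m κ s t) : RB n m κ t s := by
  obtain ⟨x, y, hx, hy, h⟩ := h
  exact ⟨y, x, hy, hx, adj_symm hC h⟩

open Classical in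
theorem RB_deg {n : Equiv.Perm V} {m : V → V} {E : Finset V} {L : ℕ} {κ par : V → V} {dep : V → ℕ}
    (hP : Prt (hadj n m E) L κ par dep) (s : V) :
    (univ.filter fun t => RB n m κ s t).card ≤ 12 * L := by
  have hsub : (univ.filter fun t => RB n m κ s t) ⊆
      (univ.filter fun x => κ x = s).biUnion
        fun x => ({κ (n x), κ (n.symm x), κ (m x)} : Finset V) := by
    intro t ht
    rw [mem_filter] at ht
    obtain ⟨_, x, y, hx, hy, h⟩ := ht
    rw [mem_biUnion]
    refine ⟨x, by simp [hx], ?_⟩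
    have hy' : y = n x ∨ y = n.symm x ∨ y = m x := by
      rcases h with h | h | h
      · exact Or.inl h
      · exact Or.inr (Or.inl (by rw [h]; simp))
      · exact Or.inr (Or.inr h)
    rw [← hy]
    rcases hy' with h | h | h <;> simp [h]
  refine (card_le_card hsub).trans ?_
  refine (card_biUnion_le).trans ?_
  have h3 : ∀ x ∈ (univ.filter fun x => κ x = s),
      ({κ (n x), κ (n.symm x), κ (m x)} : Finset V).card ≤ 3 := fun x _ => card_le_three
  refine (sum_le_sum h3).trans ?_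
  rw [sum_const, smul_eq_mul]
  have h4 : (univ.filter fun x => κ x = s).card ≤ 4 * L := by
    by_cases he : ∃ v, κ v = s
    · obtain ⟨v, rfl⟩ := he
      have := hP.up v
      convert this
    · have : (univ.filter fun x => κ x = s) = ∅ := by
        ext x
        simp only [mem_filter, mem_univ, true_and, notMem_empty, iff_false]
        exact fun hx => he ⟨x, hx⟩
      rw [this]
      simp
  omega

end

theorem cntc (hPrt : PrtStmt) (hEnc : EncStmt) (hTch : TchcStmt) (hCut : CutcStmt)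
    (hCon : ConStmt) : CntcStmt := by
  classical
  intro V _ _ n m E L hC hL1 hE hconn ρ Z A D k u e v d hv hd hA
  have hL0 : (0 : ℝ) < L := by exact_mod_cast hL1
  obtain ⟨κ, par, dep, hP⟩ := hPrt V (hadj n m E) L (fun x y h => hadj_symm hC hE h)
    (hadj_deg n m E) hL1 hconn
  set PP : Finset (Finset V) := (univ : Finset (Finset V)).filter
    (fun Y => Rooted (RB n m κ) (Z.image κ) Y ∧ Y.card ≤ k) with hPP
  have hY : ∀ f ∈ A, ((D f).image κ) ∈ PP ∧ ((D f).image κ).card ≤ k ∧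
      (∀ x, κ x ∉ ((D f).image κ) → f x = ρ x) ∧ (Ct κ par ((D f).image κ) f).card ≤ v := by
    intro f hf
    obtain ⟨h1, h2, h3, h4, h5, h6, h7⟩ := hA f hf
    have hk : ((D f).image κ).card ≤ k := by
      have h8 := hTch V n m E L κ par dep hC.mm hE hP (D f)
      have h9 : L * ((D f).image κ).card ≤ L * k := by
        refine h8.trans ?_
        have h10 : 1 + 2 * (Xr n (D f)).card + (E ∩ Ym m (D f)).card ≤ 1 + v := by omega
        have h11 := Nat.mul_le_mul_left L h10
        omega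
      exact Nat.le_of_mul_le_mul_left h9 hL1
    refine ⟨?_, hk, ?_, ?_⟩
    · rw [hPP, mem_filter]
      refine ⟨mem_univ _, ?_, hk⟩
      intro S hS hne hcl
      obtain ⟨z, hz, hzZ⟩ := h2 ((D f).filter fun x => κ x ∈ S) (filter_subset _ _) (by
        obtain ⟨s, hs⟩ := hne
        obtain ⟨x, hx, rfl⟩ := mem_image.1 (hS hs)
        exact ⟨x, mem_filter.2 ⟨hx, hs⟩⟩) (by
        intro x hx y hy hxy
        rw [mem_filter] at hx
        rw [mem_filter]
        exact ⟨hy, hcl (κ x) hx.2 (κ y) (mem_image_of_mem _ hy)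
          ⟨x, y, rfl, rfl, hxy⟩⟩)
      rw [mem_filter] at hz
      exact ⟨κ z, hz.2, mem_image_of_mem _ hzZ⟩
    · intro x hx
      exact h1 x fun hxD => hx (mem_image_of_mem _ hxD)
    · have h8 := hCut V n m E L κ par dep hC.mm hE hP ((D f).image κ) f
      omega
  have hcount := hEnc V (hadj n m E) L κ par dep hL1 hP ρ PP A (fun f => (D f).image κ) k v hY
  -- the number of rooted sets
  have hcon := hCon V (RB n m κ) (12 * L) (RB_symm hC κ) (by omega)
    (fun x => by
      have := RB_deg hP x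
      convert this) (Z.image κ)
  have e1 : (4 * ((12 * L : ℕ) : ℝ)) = 48 * L := by push_cast; ring
  have e2 : (2 * ((12 * L : ℕ) : ℝ)) = 24 * L := by push_cast; ring
  rw [e1, e2] at hcon
  have hq0 : (0 : ℝ) ≤ 1 / (48 * L) := by positivity
  have hq1 : (1 : ℝ) / (48 * L) ≤ 1 := by
    rw [div_le_one (by positivity)]
    have : (1 : ℝ) ≤ L := by exact_mod_cast hL1
    linarith
  have hPs : (PP.card : ℝ) * (1 / (48 * (L : ℝ))) ^ k ≤
      (1 + 1 / (24 * (L : ℝ))) ^ (Z.image κ).card := by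
    refine le_trans ?_ hcon
    calc (PP.card : ℝ) * (1 / (48 * (L : ℝ))) ^ k = ∑ Y ∈ PP, (1 / (48 * (L : ℝ))) ^ k := by
          rw [sum_const, nsmul_eq_mul]
      _ ≤ ∑ Y ∈ PP, (1 / (48 * (L : ℝ))) ^ Y.card := by
          refine sum_le_sum fun Y hYP => ?_
          rw [hPP, mem_filter] at hYP
          exact pow_le_pow_of_le_one hq0 hq1 hYP.2.2
      _ ≤ _ := by
          refine sum_le_sum_of_subset_of_nonneg ?_ fun Y _ _ => by positivity
          intro Y hYP
          rw [hPP, mem_filter] at hYP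
          rw [mem_filter]
          exact ⟨mem_univ _, hYP.2.1⟩
  have hZ : (1 + 1 / (24 * (L : ℝ))) ^ (Z.image κ).card ≤ (1 + 1 / (24 * (L : ℝ))) ^ Z.card := by
    refine pow_le_pow_right₀ ?_ card_image_le
    have : (0 : ℝ) ≤ 1 / (24 * L) := by positivity
    linarith
  have hPc : (PP.card : ℝ) ≤ (48 * (L : ℝ)) ^ k * (1 + 1 / (24 * (L : ℝ))) ^ Z.card := by
    have h24 : (0 : ℝ) < (48 * (L : ℝ)) ^ k := by positivity
    have h1 := hPs.trans hZ
    have h2 : (1 / (48 * (L : ℝ))) ^ k = 1 / (48 * (L : ℝ)) ^ k := by rw [one_div_pow]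
    rw [h2, mul_one_div, div_le_iff₀ h24] at h1
    linarith
  have hz0 : (0 : ℝ) ≤ (1 + 1 / (24 * (L : ℝ))) ^ Z.card := by positivity
  have hk1 : (720 * (L : ℝ)) ^ k ≤ (864 * (L : ℝ)) ^ k :=
    pow_le_pow_left₀ (by positivity) (by nlinarith) k
  have hv1 : (20 * (L : ℝ)) ^ v ≤ (24 * (L : ℝ)) ^ v :=
    pow_le_pow_left₀ (by positivity) (by nlinarith) v
  calc (A.card : ℝ) ≤ PP.card * ((4 * (L : ℝ)) ^ v * 3 ^ k) * 5 ^ (k + v) := hcount
    _ ≤ ((48 * (L : ℝ)) ^ k * (1 + 1 / (24 * (L : ℝ))) ^ Z.card) *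
        ((4 * (L : ℝ)) ^ v * 3 ^ k) * 5 ^ (k + v) := by gcongr
    _ = (720 * (L : ℝ)) ^ k * (20 * (L : ℝ)) ^ v * (1 + 1 / (24 * (L : ℝ))) ^ Z.card := by
        have h1 : (720 * (L : ℝ)) ^ k = (48 * (L : ℝ)) ^ k * 3 ^ k * 5 ^ k := by
          rw [← mul_pow, ← mul_pow]
          ring_nf
        have h2 : (20 * (L : ℝ)) ^ v = (4 * (L : ℝ)) ^ v * 5 ^ v := by
          rw [← mul_pow]
          ring_nf
        rw [h1, h2, pow_add]
        ring
    _ ≤ (864 * (L : ℝ)) ^ k * (24 * (L : ℝ)) ^ v * (1 + 1 / (24 * (L : ℝ))) ^ Z.card := by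
        gcongr

end Pool.Agent.Helper88.FRX
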