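import Pool.Agent.Helper38.FRX.Goals
import Pool.Agent.Helper24.FR.LOCN

set_option autoImplicit false

/-!
# FRX-LOCNC: a local barrier with cores gives a local structure (light-cut condition)
-/

namespace Pool.Agent.Helper88.FRX

open Finset Pool.Agent.Helper55.FR Pool.Agent.Helper38.FRX

theorem locnc (hidf : IdfStmt) (hskf : SkfStmt) (hidm : IdmStmt) (hcut : CutStmt) (hfit : FitStmt)
    (hvmb : VmbStmt) : LocncStmt := by
  intro V _ _ n m h lam g B T I Q hc h0 h1 hg hlam hexp hlig hB hlocc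
  obtain ⟨hloc, hcore⟩ := hlocc
  have hpre := hloc.pre
  obtain ⟨f, hf, hF⟩ := hcut V n m B 0 T I Q hpre
  obtain ⟨hadm, hdis⟩ := hfit V n m B 0 T I Q f hc hB hpre hf
  have e1 := hidf V n m B 0 T I Q f hpre hf
  have e2 := hskf V n m B 0 T I Q f hpre hf
  have e3 := hidm V n m B 0 T I Q hc.mm hpre
  have e4 := hloc.sur
  have hsm := hloc.small
  have hK1 : ∀ K ∈ Q, h * (K.card : ℝ) ≤ ((2 * dF n K : ℕ) : ℝ) + ((dM m K : ℕ) : ℝ) := by
    intro K hK
    have := hexp K (hsm K hK)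
    push_cast
    exact this
  have hlam0 : 0 ≤ lam := by linarith
  have hK2 : ∀ K ∈ Q, lam * (1 - ((2 * dF n K : ℕ) : ℝ) / 4) ≤
      ((2 * dF n K : ℕ) : ℝ) + ((dM m K : ℕ) : ℝ) := by
    intro K hK
    have hnn : (0 : ℝ) ≤ ((2 * dF n K : ℕ) : ℝ) + ((dM m K : ℕ) : ℝ) := by positivity
    have hd0 : (0 : ℝ) ≤ ((2 * dF n K : ℕ) : ℝ) := Nat.cast_nonneg _
    rcases Nat.lt_or_ge (dF n K) 2 with hd | hd
    · obtain ⟨hKc, K', hK'c, hKK'⟩ := hcore K hK
      have h2 := hlig K K K' hKc hK'c (Subset.refl _) hKK' (by omega)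
      have h3 : lam * (1 - ((2 * dF n K : ℕ) : ℝ) / 4) ≤ lam * 1 :=
        mul_le_mul_of_nonneg_left (by linarith) hlam0
      push_cast at h3 ⊢
      linarith
    · have h2 : (4 : ℝ) ≤ ((2 * dF n K : ℕ) : ℝ) := by
        have : 4 ≤ 2 * dF n K := by omega
        exact_mod_cast this
      have h3 : lam * (1 - ((2 * dF n K : ℕ) : ℝ) / 4) ≤ 0 :=
        mul_nonpos_of_nonneg_of_nonpos hlam0 (by linarith)
      linarith
  have hs1 : ∑ K ∈ Q, h * (K.card : ℝ) ≤ ((∑ K ∈ Q, 2 * dF n K : ℕ) : ℝ) +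
      ((∑ K ∈ Q, dM m K : ℕ) : ℝ) := by
    push_cast
    rw [← Finset.sum_add_distrib]
    apply Finset.sum_le_sum
    intro K hK
    have := hK1 K hK
    push_cast at this
    exact this
  have hs2 : lam * ((Q.card : ℝ) - ((∑ K ∈ Q, 2 * dF n K : ℕ) : ℝ) / 4) ≤
      ((∑ K ∈ Q, 2 * dF n K : ℕ) : ℝ) + ((∑ K ∈ Q, dM m K : ℕ) : ℝ) := by
    have h2 := Finset.sum_le_sum hK2
    rw [← Finset.mul_sum, Finset.sum_sub_distrib, Finset.sum_const, nsmul_eq_mul, mul_one,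
      ← Finset.sum_div, Finset.sum_add_distrib, ← Nat.cast_sum, ← Nat.cast_sum] at h2
    exact h2
  -- the set `T ∪ I`
  have hSl : ∀ x, x ∈ T ∪ I ↔ (f x = Lab.T ∨ f x = Lab.I) := by
    intro x
    rw [mem_union, hf.fT, hf.fI]
  have hScard : (T ∪ I).card = T.card + I.card := card_union_of_disjoint hpre.tI
  have hS1 : h * ((T ∪ I).card : ℝ) ≤ ((2 * dF n (T ∪ I) : ℕ) : ℝ) + ((dM m (T ∪ I) : ℕ) : ℝ) := by
    have := hexp (T ∪ I) (by rw [hScard]; exact hloc.half)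
    push_cast
    exact this
  have hS2 := Pool.Agent.Helper24.FR.two_dF n (T ∪ I) f hSl
  have hS3 : dM m (T ∪ I) ≤ ∑ K ∈ Q, dM m K +
      ((T ∪ I ∪ Q.biUnion id).filter fun x => m x ∉ T ∪ I ∪ Q.biUnion id).card := by
    have hsub : ((T ∪ I).filter fun x => m x ∉ T ∪ I) ⊆
        ((Q.biUnion fun K => K.filter fun x => m x ∉ K).image m) ∪
        ((T ∪ I ∪ Q.biUnion id).filter fun x => m x ∉ T ∪ I ∪ Q.biUnion id) := by
      intro x hx
      obtain ⟨hx1, hx2⟩ := mem_filter.mp hx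
      rw [mem_union]
      by_cases hk : ∃ K ∈ Q, m x ∈ K
      · left
        obtain ⟨K, hK, hmx⟩ := hk
        refine mem_image.mpr ⟨m x, mem_biUnion.mpr ⟨K, hK, mem_filter.mpr ⟨hmx, ?_⟩⟩, hc.mm x⟩
        rw [hc.mm]
        intro hxK
        rcases mem_union.mp hx1 with h2 | h2
        · exact disjoint_left.mp (hpre.tK K hK) h2 hxK
        · exact disjoint_left.mp (hpre.iK K hK) h2 hxK
      · right
        refine mem_filter.mpr ⟨mem_union.mpr (Or.inl hx1), ?_⟩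
        intro hm
        rcases mem_union.mp hm with h2 | h2
        · exact hx2 h2
        · obtain ⟨K, hK, hmx⟩ := mem_biUnion.mp h2
          exact hk ⟨K, hK, hmx⟩
    have h2 := card_le_card hsub
    have h3 := card_union_le ((Q.biUnion fun K => K.filter fun x => m x ∉ K).image m)
      ((T ∪ I ∪ Q.biUnion id).filter fun x => m x ∉ T ∪ I ∪ Q.biUnion id)
    have h4 : ((Q.biUnion fun K => K.filter fun x => m x ∉ K).image m).card ≤ ∑ K ∈ Q, dM m K :=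
      le_trans card_image_le card_biUnion_le
    unfold dM at h4 ⊢
    omega
  have hW : Ws f = T ∪ I ∪ Q.biUnion id := by
    ext x
    simp only [Ws, mem_filter, mem_univ, true_and, mem_union, mem_biUnion, id]
    rw [← hf.fT, ← hf.fI, ← hf.fK]
    unfold isK
    cases f x <;> simp
  have hWc : (Ws f).card ≤ (T ∪ I).card + ∑ K ∈ Q, K.card := by
    rw [hW]
    exact le_trans (card_union_le _ _) (Nat.add_le_add_left card_biUnion_le _)
  obtain ⟨s, hs⟩ : ∃ s, s = (Spc n f).card := ⟨_, rfl⟩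
  obtain ⟨DM, hDM⟩ : ∃ d, d = ∑ K ∈ Q, dM m K := ⟨_, rfl⟩
  obtain ⟨DF, hDF⟩ : ∃ d, d = ∑ K ∈ Q, 2 * dF n K := ⟨_, rfl⟩
  obtain ⟨b, hb⟩ : ∃ b, b = (Bad m f).card := ⟨_, rfl⟩
  obtain ⟨F, hFd⟩ : ∃ F, F = (Full m T I Q).card := ⟨_, rfl⟩
  obtain ⟨p, hp⟩ : ∃ p, p = Q.card := ⟨_, rfl⟩
  obtain ⟨tm, htm⟩ : ∃ t, t = (T.filter fun x => m x ∈ T).card := ⟨_, rfl⟩
  obtain ⟨out, hout⟩ : ∃ t, t =
    ((T ∪ I ∪ Q.biUnion id).filter fun x => m x ∉ T ∪ I ∪ Q.biUnion id).card := ⟨_, rfl⟩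
  obtain ⟨SF, hSF⟩ : ∃ d, d = 2 * dF n (T ∪ I) := ⟨_, rfl⟩
  obtain ⟨SM, hSM⟩ : ∃ d, d = dM m (T ∪ I) := ⟨_, rfl⟩
  rw [← hs] at e1 e2 hS2
  rw [← hDF] at e2
  rw [← hDM, ← hFd, ← htm, ← hout] at e3
  rw [← hp] at e4
  rw [← hFd, ← hb] at hF
  rw [← hDF, ← hDM] at hs1
  rw [← hDF, ← hDM, ← hp] at hs2
  rw [← hSF] at hS2
  rw [← hSM, ← hDM, ← hout] at hS3
  rw [← hSF, ← hSM] at hS1
  have n1 : s + 2 ≤ 2 * p := by omega
  have n2 : DM + tm + out + 1 ≤ F + p := by omega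
  have n3 : DF ≤ s := e2
  have r1 : (s : ℝ) + 2 ≤ 2 * p := by exact_mod_cast n1
  have r2 : (DM : ℝ) + tm + out + 1 ≤ F + p := by exact_mod_cast n2
  have r3 : (DF : ℝ) ≤ s := by exact_mod_cast n3
  have r4 : (F : ℝ) ≤ 2 * b := by exact_mod_cast hF
  have r5 : (0 : ℝ) ≤ p := Nat.cast_nonneg _
  have r6 : (0 : ℝ) ≤ tm := Nat.cast_nonneg _
  have r7 : (0 : ℝ) ≤ s := Nat.cast_nonneg _
  have r9 : (0 : ℝ) ≤ DM := Nat.cast_nonneg _
  have r10 : (0 : ℝ) ≤ out := Nat.cast_nonneg _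
  have r11 : (SF : ℝ) ≤ s := by exact_mod_cast hS2
  have r12 : (SM : ℝ) ≤ DM + out := by exact_mod_cast hS3
  have r8 : (24 : ℝ) * p ≤ p * (h * g) := by
    rw [mul_comm]
    exact mul_le_mul_of_nonneg_left hg r5
  have r13 : (p : ℝ) * (h * g) ≤ DF + DM := by
    have h2 : lam * ((p : ℝ) / 2) ≤ lam * ((p : ℝ) - DF / 4) :=
      mul_le_mul_of_nonneg_left (by linarith) hlam0
    have h3 : (p : ℝ) * (2 * (h * g)) ≤ p * lam := mul_le_mul_of_nonneg_left hlam r5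
    linarith
  have v1 : (TT m f).card = tm := by
    rw [htm]
    congr 1
    ext x
    simp only [TT, mem_filter, mem_univ, true_and, hf.fT]
  have v2 : (MK m f).card ≤ DM := by
    have hsub : MK m f ⊆ Q.biUnion fun K => K.filter fun x => m x ∉ K := by
      intro x hx
      simp only [MK, mem_filter, mem_univ, true_and] at hx
      obtain ⟨K, hK, hxK⟩ := (hf.fK x).1 hx.1
      refine mem_biUnion.2 ⟨K, hK, mem_filter.2 ⟨hxK, fun hm => hx.2 ?_⟩⟩
      exact (hf.fK (m x)).2 ⟨K, hK, hm⟩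
    have h2 := (card_le_card hsub).trans card_biUnion_le
    rw [hDM]
    exact h2
  have v3 : (univ.filter fun x => f x ≠ Lab.O ∧ f (m x) = Lab.O).card = out := by
    rw [hout, ← hW]
    congr 1
    ext x
    simp only [Ws, mem_filter, mem_univ, true_and, not_not]
  have v4 := hvmb V m f hc.mm
  rw [v1, v3, ← hb] at v4
  have v5 : ((VM m f).card : ℝ) ≤ b + tm + 2 * DM + 2 * out := by
    have h2 : (VM m f).card ≤ b + tm + 2 * DM + 2 * out := by omega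
    exact_mod_cast h2
  have q1 : ∑ K ∈ Q, h * (K.card : ℝ) ≤ F + 3 * p := by linarith
  have q2 : (21 : ℝ) * p ≤ F := by linarith
  have q3 : (p : ℝ) * (h * g) ≤ 8 / 7 * F := by linarith
  have q4 : (1 : ℝ) ≤ p := by linarith
  have q0 : (0 : ℝ) ≤ h * g := by linarith
  have q5 : h * ((T ∪ I).card : ℝ) ≤ F + 3 * p := by linarith
  have v6 : (VM m f).card ≤ 7 * (Bad m f).card := by
    rw [← hb]
    have h2 : ((VM m f).card : ℝ) ≤ 7 * b := by linarith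
    exact_mod_cast h2
  refine ⟨f, ⟨⟨hadm, ?_, ?_, ?_, ?_⟩, v6⟩, hdis⟩
  · rw [hW]
    intro S hS hne hcl
    refine hloc.con S hS hne ?_
    intro x hx y hy hxy
    refine hcl x hx y hy ?_
    rcases hxy with h2 | h2 | h2
    · exact Or.inl h2
    · exact Or.inr (Or.inl h2)
    · exact Or.inr (Or.inr h2.1)
  · rw [← hb]
    have h2 : ((Ws f).card : ℝ) ≤ ((T ∪ I).card : ℝ) + ∑ K ∈ Q, (K.card : ℝ) := by
      exact_mod_cast hWc
    have h3 : h * ((Ws f).card : ℝ) ≤ h * ((T ∪ I).card : ℝ) + ∑ K ∈ Q, h * (K.card : ℝ) := by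
      rw [← Finset.mul_sum, ← mul_add]
      exact mul_le_mul_of_nonneg_left h2 h0.le
    linarith
  · rw [← hb, ← hs]
    have h2 : h * g * s ≤ 2 * (p * (h * g)) := by
      have : (h * g) * (s : ℝ) ≤ (h * g) * (2 * p) :=
        mul_le_mul_of_nonneg_left (by linarith) q0
      linarith
    linarith
  · rw [← hb]
    have h2 : h * g ≤ p * (h * g) := by
      have : (1 : ℝ) * (h * g) ≤ p * (h * g) := mul_le_mul_of_nonneg_right (by linarith) q0
      linarith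
    linarith

end Pool.Agent.Helper88.FRX
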